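import Mathlib
import Pool.Agent.R591.BT.Orders

set_option autoImplicit false

/-!
# MP_f5c9aa_lc, Q1: under `PFA⁺`, Baumgartner types with the same index set have a common
non-`σ`-scattered suborder

Already `FA⁺` for `σ`-closed notions of forcing gives a stationary `S' ⊆ S` on which the two
lexicographic orders agree.
-/

namespace Pool.Agent.Results.MP_f5c9aa_lc.CommonSuborder

open Set Cardinal Pool.Agent.Helper669.Forcing Pool.Agent.R591.BT

/-- `σ`-closed notions of forcing are proper -/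
theorem proper_of_sigmaClosed (P : Type) [PartialOrder P] (hP : SigmaClosed P) : Proper P := by
  classical
  let F : List (P ⊕ Set P) → P ⊕ Set P := fun l =>
    if h : ∃ q : P, ∃ p D, l = [Sum.inl p, Sum.inr D] ∧ q ∈ D ∧ q ≤ p then Sum.inl h.choose
    else Sum.inr Set.univ
  refine ⟨F, ?_⟩
  intro M hM hF p hp
  have huniv : Sum.inr Set.univ ∈ M := by
    have h1 : F [] = Sum.inr Set.univ := by
      refine dif_neg ?_
      rintro ⟨q, p, D, h, _⟩
      simp at h
    rw [← h1]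
    exact hF [] (by simp)
  have hcount : {D : Set P | Sum.inr D ∈ M}.Countable :=
    hM.preimage_of_injOn (f := fun D : Set P => (Sum.inr D : P ⊕ Set P))
      (fun a _ b _ h => Sum.inr_injective h)
  obtain ⟨e, he⟩ := hcount.exists_eq_range ⟨Set.univ, huniv⟩
  have hstep : ∀ (p : P) (D : Set P), Sum.inl p ∈ M → Sum.inr D ∈ M →
      ∃ q, q ≤ p ∧ Sum.inl q ∈ M ∧ (DenseSet D → q ∈ D) := by
    intro p D hp hD
    by_cases hd : DenseSet D
    · obtain ⟨q, hq, hqp⟩ := hd p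
      have h : ∃ q : P, ∃ p' D', ([Sum.inl p, Sum.inr D] : List (P ⊕ Set P)) =
          [Sum.inl p', Sum.inr D'] ∧ q ∈ D' ∧ q ≤ p' := ⟨q, p, D, rfl, hq, hqp⟩
      have h1 : F [Sum.inl p, Sum.inr D] = Sum.inl h.choose := dif_pos h
      obtain ⟨p', D', h2, h3, h4⟩ := h.choose_spec
      simp only [List.cons.injEq, Sum.inl.injEq, Sum.inr.injEq, and_true] at h2
      obtain ⟨rfl, rfl⟩ := h2
      refine ⟨h.choose, h4, ?_, fun _ => h3⟩
      rw [← h1]
      refine hF _ ?_
      intro a ha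
      simp only [List.mem_cons, List.not_mem_nil, or_false] at ha
      rcases ha with rfl | rfl
      · exact hp
      · exact hD
    · exact ⟨p, le_rfl, hp, fun h => absurd h hd⟩
  choose! nx hnx using hstep
  let seq : ℕ → P := fun n => Nat.rec p (fun n p => nx p (e n)) n
  have heM : ∀ n, Sum.inr (e n) ∈ M := fun n => by
    have : e n ∈ {D : Set P | Sum.inr D ∈ M} := by rw [he]; exact ⟨n, rfl⟩
    exact this
  have hseqM : ∀ n, Sum.inl (seq n) ∈ M := by
    intro n
    induction n with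
    | zero => exact hp
    | succ n ih => exact (hnx (seq n) (e n) ih (heM n)).2.1
  have hseq : ∀ n, seq (n + 1) ≤ seq n ∧ (DenseSet (e n) → seq (n + 1) ∈ e n) := fun n =>
    ⟨(hnx (seq n) (e n) (hseqM n) (heM n)).1, (hnx (seq n) (e n) (hseqM n) (heM n)).2.2⟩
  obtain ⟨q, hq⟩ := hP seq (fun n => (hseq n).1)
  refine ⟨q, hq 0, ?_⟩
  intro D hD hd r hr
  have : D ∈ range e := by rw [← he]; exact hD
  obtain ⟨n, rfl⟩ := this
  exact ⟨seq (n + 1), (hseq n).2 hd, hseqM (n + 1), r, le_rfl, hr.trans (hq (n + 1))⟩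

theorem FAplus_mono (𝔓 𝔔 : (P : Type) → [PartialOrder P] → Prop)
    (h : ∀ (P : Type) [PartialOrder P], 𝔓 P → 𝔔 P) (hQ : FAplus 𝔔) : FAplus 𝔓 :=
  fun P _ _ hP => hQ P (h P hP)

theorem exists_agree (hFA : FAplus (fun P _ => SigmaClosed P)) (S : Set W) (x y : W → ℕ → W)
    (hS : Stationary S) (hx : IsLadder S x) (hy : IsLadder S y) :
    ∃ S' ⊆ S, Stationary S' ∧ ∀ α ∈ S', ∀ β ∈ S',
      (toLex (x α) < toLex (x β) ↔ toLex (y α) < toLex (y β)) := by
  obtain ⟨S₁, Y, Z, hS₁, hY, hZ, hU, hlx⟩ := reduction (lad_rg hx) (lad_rg hy)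
    ((stationary_iff S).1 hS)
  obtain ⟨G, hG, _, hst⟩ := hFA (Cd S₁ Y Z) (sigmaClosed hY hZ) (fun _ => Set.univ)
    (fun _ p => ⟨p, mem_univ _, le_rfl⟩) (gen S₁ Y Z) (gen_stationary hY hZ hU)
  have hsub : {ξ | ∃ p ∈ G, p ∈ meets (gen S₁ Y Z ξ)} ⊆ S₁ := fun ξ hξ =>
    (filter_agree hG hξ hξ).1
  refine ⟨_, hsub.trans hS₁, hst, ?_⟩
  intro α hα β hβ
  have h1 := (filter_agree hG hα hβ).2
  have h2 := hlx α (hsub hα) β (hsub hβ)
  rw [← lx_iff hx (hS₁ (hsub hα)) (hS₁ (hsub hβ)), ← lx_iff hy (hS₁ (hsub hα)) (hS₁ (hsub hβ)),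
    h2.1, h2.2, h1]

/-- (1) `σ`-closed notions of forcing are proper, so that `PFA⁺` implies `FA⁺(σ-closed)`.
(2) Assume `FA⁺(σ-closed)`. Let `S ⊆ ω₁` be stationary and let `x` and `y` be ladders on `S`. Then
for some stationary `S' ⊆ S`, the lexicographic orders of `{x α : α ∈ S'}` and `{y α : α ∈ S'}`
agree; the Baumgartner type of `S'` and `x` is not `σ`-scattered and embeds into the Baumgartner
types of `S` and `x` and of `S` and `y`. -/
theorem result :
    ((∀ (P : Type) [PartialOrder P], SigmaClosed P → Proper P) ∧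
      (FAplus (fun P _ => Proper P) → FAplus (fun P _ => SigmaClosed P))) ∧
    (FAplus (fun P _ => SigmaClosed P) →
      ∀ (S : Set W) (x y : W → ℕ → W), Stationary S → IsLadder S x → IsLadder S y →
        ∃ S' ⊆ S, Stationary S' ∧
          (∀ α ∈ S', ∀ β ∈ S',
            (toLex (x α) < toLex (x β) ↔ toLex (y α) < toLex (y β))) ∧
          ¬ SigmaScattered (BType S' x) ∧
          Nonempty (BType S' x ↪o BType S x) ∧ Nonempty (BType S' x ↪o BType S y)) := by
  refine ⟨⟨proper_of_sigmaClosed, FAplus_mono _ _ proper_of_sigmaClosed⟩, ?_⟩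
  intro hFA S x y hS hx hy
  obtain ⟨S', hS', hst, hag⟩ := exists_agree hFA S x y hS hx hy
  refine ⟨S', hS', hst, hag, ?_, ?_, ?_⟩
  · let φ : BType S' x → W := fun f => f.2.choose
    have hφ1 : ∀ f : BType S' x, φ f ∈ S' ∧ f.1 = toLex (x (φ f)) := fun f => f.2.choose_spec
    refine not_sigmaScattered (hx.mono hS') ((stationary_iff S').1 hst) _ φ
      (fun f => (hφ1 f).1) ?_ ?_
    · intro α hα
      refine ⟨⟨toLex (x α), α, hα, rfl⟩, ?_⟩
      have h1 := hφ1 ⟨toLex (x α), α, hα, rfl⟩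
      exact (ladder_inj (hx.mono hS') hα h1.1 (toLex.injective h1.2)).symm
    · intro f g
      rw [← (hφ1 f).2, ← (hφ1 g).2]
      exact Iff.rfl
  · exact ⟨OrderEmbedding.ofStrictMono
      (fun f => ⟨f.1, f.2.choose, hS' f.2.choose_spec.1, f.2.choose_spec.2⟩) (fun f g h => h)⟩
  · refine ⟨OrderEmbedding.ofStrictMono
      (fun f => ⟨toLex (y f.2.choose), f.2.choose, hS' f.2.choose_spec.1, rfl⟩) ?_⟩
    intro f g hfg
    show toLex (y f.2.choose) < toLex (y g.2.choose)
    rw [← hag _ f.2.choose_spec.1 _ g.2.choose_spec.1, ← f.2.choose_spec.2, ← g.2.choose_spec.2]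
    exact hfg

end Pool.Agent.Results.MP_f5c9aa_lc.CommonSuborder
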